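import Mathlib

/-!
# Local search for common independent sets: lifting an exchange from a contraction
-/

set_option autoImplicit false

namespace Pool.Agent.Helper69.LS2

variable {E : Type} [DecidableEq E]

/-- Augmentation with a prescribed number of elements. -/
theorem aug_card (M : Matroid E) {I J : Finset E} (hI : M.Indep (I : Set E))
    (hJ : M.Indep (J : Set E)) (n : ℕ) (hn : I.card + n ≤ J.card) :
    ∃ K : Finset E, K ⊆ J \ I ∧ K.card = n ∧ M.Indep ((I ∪ K : Finset E) : Set E) := by
  induction n with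
  | zero => exact ⟨∅, by simp, by simp, by simpa using hI⟩
  | succ n ih =>
    obtain ⟨K, hK1, hK2, hK3⟩ := ih (by omega)
    have hdis : Disjoint I K := by
      rw [Finset.disjoint_left]
      intro x hx hxK
      exact (Finset.mem_sdiff.1 (hK1 hxK)).2 hx
    have hc : (I ∪ K).card = I.card + n := by
      rw [Finset.card_union_of_disjoint hdis, hK2]
    have hlt : ((I ∪ K : Finset E) : Set E).encard < (J : Set E).encard := by
      rw [Set.encard_coe_eq_coe_finsetCard, Set.encard_coe_eq_coe_finsetCard]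
      exact_mod_cast (by omega : (I ∪ K).card < J.card)
    obtain ⟨x, hx, hxI⟩ := hK3.augment hJ hlt
    have hxJ : x ∈ J := Finset.mem_coe.1 hx.1
    have hxn : x ∉ I ∪ K := fun h => hx.2 (Finset.mem_coe.2 h)
    refine ⟨insert x K, ?_, ?_, ?_⟩
    · refine Finset.insert_subset (Finset.mem_sdiff.2 ⟨hxJ, fun h => hxn
        (Finset.mem_union_left _ h)⟩) hK1
    · rw [Finset.card_insert_of_notMem (fun h => hxn (Finset.mem_union_right _ h)), hK2]
    · rw [Finset.union_insert, Finset.coe_insert]
      exact hxI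

/-- Adding `X` costs at most `|X|` elements. -/
theorem ext_few (M : Matroid E) {C T X : Finset E} (hCT : Disjoint C T)
    (h1 : M.Indep ((C ∪ T : Finset E) : Set E)) (h2 : M.Indep ((C ∪ X : Finset E) : Set E)) :
    ∃ R : Finset E, R ⊆ T ∧ R.card ≤ X.card ∧
      M.Indep ((C ∪ X ∪ (T \ R) : Finset E) : Set E) := by
  rcases le_or_gt T.card X.card with h | h
  · exact ⟨T, subset_rfl, h, by simpa using h2⟩
  · obtain ⟨K, hK1, hK2, hK3⟩ := aug_card M h2 h1 (T.card - X.card) (by
      have h3 := Finset.card_union_le C X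
      rw [Finset.card_union_of_disjoint hCT]
      omega)
    have hKT : K ⊆ T := by
      intro x hx
      have h3 := Finset.mem_sdiff.1 (hK1 hx)
      rcases Finset.mem_union.1 h3.1 with h4 | h4
      · exact absurd (Finset.mem_union_left _ h4) h3.2
      · exact h4
    refine ⟨T \ K, Finset.sdiff_subset, ?_, ?_⟩
    · rw [Finset.card_sdiff_of_subset hKT]
      omega
    · rw [Finset.sdiff_sdiff_eq_self hKT]
      exact hK3

theorem lift {k : ℕ} (M : Fin k → Matroid E) {B X W F Y : Finset E} (Fl Yl : Fin k → Finset E)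
    (hF : F = Finset.univ.biUnion Fl) (hY : Y = Finset.univ.biUnion Yl)
    (hFd : ∀ l m, l ≠ m → Disjoint (Fl l) (Fl m)) (hYd : ∀ l m, l ≠ m → Disjoint (Yl l) (Yl m))
    (hYB : ∀ l, Yl l ⊆ B) (hcard : ∀ l, (Yl l).card = (Fl l).card)
    (hFB : ∀ l, Disjoint (Fl l) B) (hXB : Disjoint X B) (hXF : ∀ l, Disjoint X (Fl l))
    (h1 : ∀ l, (M l).Indep ((B ∪ (F \ Fl l) : Finset E) : Set E))
    (h2 : ∀ l, (M l).Indep (((B \ Yl l) ∪ F : Finset E) : Set E))
    (hW : W ⊆ B \ Y)
    (h3 : ∀ l, (M l).Indep ((((B \ Y) \ W) ∪ X ∪ F : Finset E) : Set E))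
    (hlt : W.card < X.card) :
    ∃ X2 : Finset E, X2 ⊆ X ∪ F ∧ X2.card ≤ (2 * k + 1) * X.card ∧
      ∃ B' : Finset E, B' ⊆ B ∪ X2 ∧ (∀ l, (M l).Indep (B' : Set E)) ∧ B.card < B'.card := by
  have hFlF : ∀ l, Fl l ⊆ F := fun l => hF ▸ Finset.subset_biUnion_of_mem Fl (Finset.mem_univ l)
  have hYlY : ∀ l, Yl l ⊆ Y := fun l => hY ▸ Finset.subset_biUnion_of_mem Yl (Finset.mem_univ l)
  have hYB' : Y ⊆ B := by
    rw [hY]
    exact Finset.biUnion_subset.2 fun l _ => hYB l
  have hFB' : Disjoint F B := by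
    rw [hF, Finset.disjoint_biUnion_left]
    exact fun l _ => hFB l
  have hXF' : Disjoint X F := by
    rw [hF, Finset.disjoint_biUnion_right]
    exact fun l _ => hXF l
  obtain ⟨A0, hA0⟩ : ∃ A0 : Finset E, A0 = (B \ Y) \ W := ⟨_, rfl⟩
  have hA0B : A0 ⊆ B := by
    rw [hA0]
    exact Finset.sdiff_subset.trans Finset.sdiff_subset
  have hA0Y : Disjoint A0 Y := by
    rw [hA0, Finset.disjoint_left]
    intro x hx
    exact (Finset.mem_sdiff.1 (Finset.mem_sdiff.1 hx).1).2
  rw [← hA0] at h3
  have hd1 : ∀ {P Q : Finset E}, Disjoint P Q → ∀ x, x ∈ P → x ∉ Q := fun h x h1 h2 =>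
    Finset.disjoint_left.1 h h1 h2
  -- step (i)
  have hi : ∀ l, ∃ R : Finset E, R ⊆ Y ∧ R.card ≤ X.card ∧
      (M l).Indep ((A0 ∪ (F \ Fl l) ∪ X ∪ (Y \ R) : Finset E) : Set E) := by
    intro l
    refine ext_few (M l) ?_ ((h1 l).subset (Finset.coe_subset.2 ?_))
      ((h3 l).subset (Finset.coe_subset.2 ?_))
    · rw [Finset.disjoint_union_left]
      refine ⟨hA0Y, ?_⟩
      exact (hFB'.mono_left Finset.sdiff_subset).mono_right hYB'
    · intro x hx
      simp only [Finset.mem_union, Finset.mem_sdiff] at hx ⊢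
      rcases hx with (hx | hx) | hx
      · exact Or.inl (hA0B hx)
      · exact Or.inr hx
      · exact Or.inl (hYB' hx)
    · intro x hx
      simp only [Finset.mem_union, Finset.mem_sdiff] at hx ⊢
      tauto
  -- step (ii)
  have hii : ∀ l, ∃ R : Finset E, R ⊆ Y \ Yl l ∧ R.card ≤ X.card ∧
      (M l).Indep ((A0 ∪ F ∪ X ∪ ((Y \ Yl l) \ R) : Finset E) : Set E) := by
    intro l
    refine ext_few (M l) ?_ ((h2 l).subset (Finset.coe_subset.2 ?_))
      ((h3 l).subset (Finset.coe_subset.2 ?_))
    · rw [Finset.disjoint_union_left]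
      refine ⟨hA0Y.mono_right Finset.sdiff_subset, ?_⟩
      exact hFB'.mono_right (Finset.sdiff_subset.trans hYB')
    · intro x hx
      simp only [Finset.mem_union, Finset.mem_sdiff] at hx ⊢
      rcases hx with (hx | hx) | hx
      · exact Or.inl ⟨hA0B hx, fun h => hd1 hA0Y x hx (hYlY l h)⟩
      · exact Or.inr hx
      · exact Or.inl ⟨hYB' hx.1, hx.2⟩
    · intro x hx
      simp only [Finset.mem_union] at hx ⊢
      tauto
  choose R hR1 hR2 hR3 using hi
  choose R' hR'1 hR'2 hR'3 using hii
  obtain ⟨Y', hY'⟩ : ∃ Y' : Finset E, Y' = Finset.univ.biUnion R ∪ Finset.univ.biUnion R' :=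
    ⟨_, rfl⟩
  have hRY' : ∀ l, R l ⊆ Y' := fun l => hY' ▸
    (Finset.subset_biUnion_of_mem R (Finset.mem_univ l)).trans Finset.subset_union_left
  have hR'Y' : ∀ l, R' l ⊆ Y' := fun l => hY' ▸
    (Finset.subset_biUnion_of_mem R' (Finset.mem_univ l)).trans Finset.subset_union_right
  have hY'Y : Y' ⊆ Y := by
    rw [hY']
    refine Finset.union_subset (Finset.biUnion_subset.2 fun l _ => hR1 l)
      (Finset.biUnion_subset.2 fun l _ => (hR'1 l).trans Finset.sdiff_subset)
  have hY'c : Y'.card ≤ 2 * k * X.card := by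
    have e1 : (Finset.univ.biUnion R).card ≤ k * X.card := by
      calc (Finset.univ.biUnion R).card ≤ ∑ l : Fin k, (R l).card := Finset.card_biUnion_le
        _ ≤ ∑ _l : Fin k, X.card := Finset.sum_le_sum fun l _ => hR2 l
        _ = k * X.card := by simp
    have e2 : (Finset.univ.biUnion R').card ≤ k * X.card := by
      calc (Finset.univ.biUnion R').card ≤ ∑ l : Fin k, (R' l).card := Finset.card_biUnion_le
        _ ≤ ∑ _l : Fin k, X.card := Finset.sum_le_sum fun l _ => hR'2 l
        _ = k * X.card := by simp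
    rw [hY']
    refine (Finset.card_union_le _ _).trans ?_
    calc _ ≤ k * X.card + k * X.card := Nat.add_le_add e1 e2
      _ = 2 * k * X.card := by ring
  -- step (iii)
  have hiii : ∀ l, ∃ K : Finset E, K ⊆ Fl l ∧ K.card = (Y' ∩ Yl l).card ∧
      (M l).Indep ((A0 ∪ (F \ Fl l) ∪ X ∪ (Y \ Y') ∪ K : Finset E) : Set E) := by
    intro l
    have hQ : (M l).Indep ((A0 ∪ (F \ Fl l) ∪ X ∪ (Y \ Y') : Finset E) : Set E) := by
      refine (hR3 l).subset (Finset.coe_subset.2 ?_)
      exact Finset.union_subset_union_right (Finset.sdiff_subset_sdiff subset_rfl (hRY' l))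
    have hZ : (M l).Indep ((A0 ∪ F ∪ X ∪ ((Y \ Yl l) \ Y') : Finset E) : Set E) := by
      refine (hR'3 l).subset (Finset.coe_subset.2 ?_)
      exact Finset.union_subset_union_right (Finset.sdiff_subset_sdiff subset_rfl (hR'Y' l))
    have hA0F : Disjoint A0 F := hFB'.symm.mono_left hA0B
    have hA0X : Disjoint A0 X := hXB.symm.mono_left hA0B
    have hcQ : (A0 ∪ (F \ Fl l) ∪ X ∪ (Y \ Y')).card =
        A0.card + (F \ Fl l).card + X.card + (Y \ Y').card := by
      rw [Finset.card_union_of_disjoint, Finset.card_union_of_disjoint,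
        Finset.card_union_of_disjoint]
      · exact hA0F.mono_right Finset.sdiff_subset
      · rw [Finset.disjoint_union_left]
        exact ⟨hA0X, hXF'.symm.mono_left Finset.sdiff_subset⟩
      · rw [Finset.disjoint_union_left, Finset.disjoint_union_left]
        exact ⟨⟨hA0Y.mono_right Finset.sdiff_subset,
          (hFB'.mono_left Finset.sdiff_subset).mono_right (Finset.sdiff_subset.trans hYB')⟩,
          hXB.mono_right (Finset.sdiff_subset.trans hYB')⟩
    have hcZ : (A0 ∪ F ∪ X ∪ ((Y \ Yl l) \ Y')).card =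
        A0.card + F.card + X.card + ((Y \ Yl l) \ Y').card := by
      rw [Finset.card_union_of_disjoint, Finset.card_union_of_disjoint,
        Finset.card_union_of_disjoint]
      · exact hA0F
      · rw [Finset.disjoint_union_left]
        exact ⟨hA0X, hXF'.symm⟩
      · rw [Finset.disjoint_union_left, Finset.disjoint_union_left]
        exact ⟨⟨hA0Y.mono_right (Finset.sdiff_subset.trans Finset.sdiff_subset),
          hFB'.mono_right ((Finset.sdiff_subset.trans Finset.sdiff_subset).trans hYB')⟩,
          hXB.mono_right ((Finset.sdiff_subset.trans Finset.sdiff_subset).trans hYB')⟩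
    have e1 : (F \ Fl l).card + (Fl l).card = F.card :=
      Finset.card_sdiff_add_card_eq_card (hFlF l)
    have e2 : (Yl l \ Y').card + (Y' ∩ Yl l).card = (Yl l).card := by
      rw [Finset.inter_comm]
      exact Finset.card_sdiff_add_card_inter (Yl l) Y'
    have e3 : (Y \ Y').card = ((Y \ Yl l) \ Y').card + (Yl l \ Y').card := by
      rw [← Finset.card_union_of_disjoint]
      · congr 1
        ext x
        have := @hYlY l x
        simp only [Finset.mem_union, Finset.mem_sdiff]
        tauto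
      · rw [Finset.disjoint_left]
        intro x hx hx2
        simp only [Finset.mem_sdiff] at hx hx2
        exact hx.1.2 hx2.1
    have e4 := hcard l
    obtain ⟨K, hK1, hK2, hK3⟩ := aug_card (M l) hQ hZ (Y' ∩ Yl l).card (by
      rw [hcQ, hcZ]
      omega)
    refine ⟨K, ?_, hK2, hK3⟩
    intro x hx
    have h5 := hK1 hx
    simp only [Finset.mem_union, Finset.mem_sdiff, not_or, not_and, not_not] at h5
    tauto
  choose K hK1 hK2 hK3 using hiii
  obtain ⟨KK, hKK⟩ : ∃ KK : Finset E, KK = Finset.univ.biUnion K := ⟨_, rfl⟩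
  have hKKc : KK.card = Y'.card := by
    have e1 : KK.card = ∑ l : Fin k, (K l).card := by
      rw [hKK]
      refine Finset.card_biUnion fun l _ m _ hlm => ?_
      exact (hFd l m hlm).mono (hK1 l) (hK1 m)
    have e2 : Y'.card = ∑ l : Fin k, (Y' ∩ Yl l).card := by
      rw [← Finset.card_biUnion]
      · congr 1
        ext x
        simp only [Finset.mem_biUnion, Finset.mem_univ, true_and, Finset.mem_inter]
        constructor
        · intro hx
          have h5 := hY'Y hx
          rw [hY, Finset.mem_biUnion] at h5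
          obtain ⟨l, -, hl⟩ := h5
          exact ⟨l, hx, hl⟩
        · rintro ⟨l, hx, -⟩
          exact hx
      · intro l _ m _ hlm
        exact ((hYd l m hlm).mono Finset.inter_subset_right Finset.inter_subset_right)
    rw [e1, e2]
    exact Finset.sum_congr rfl fun l _ => hK2 l
  have hKKF : KK ⊆ F := by
    rw [hKK]
    exact Finset.biUnion_subset.2 fun l _ => (hK1 l).trans (hFlF l)
  refine ⟨X ∪ KK, Finset.union_subset_union_right hKKF, ?_, A0 ∪ X ∪ (Y \ Y') ∪ KK, ?_, ?_, ?_⟩
  · refine (Finset.card_union_le _ _).trans ?_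
    rw [hKKc]
    calc X.card + Y'.card ≤ X.card + 2 * k * X.card := Nat.add_le_add_left hY'c _
      _ = (2 * k + 1) * X.card := by ring
  · intro x hx
    simp only [Finset.mem_union, Finset.mem_sdiff] at hx ⊢
    rcases hx with ((hx | hx) | hx) | hx
    · exact Or.inl (hA0B hx)
    · exact Or.inr (Or.inl hx)
    · exact Or.inl (hYB' hx.1)
    · exact Or.inr (Or.inr hx)
  · intro l
    refine (hK3 l).subset (Finset.coe_subset.2 ?_)
    intro x hx
    simp only [Finset.mem_union, Finset.mem_sdiff] at hx ⊢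
    rcases hx with ((hx | hx) | hx) | hx
    · tauto
    · tauto
    · tauto
    · rw [hKK, Finset.mem_biUnion] at hx
      obtain ⟨m, -, hm⟩ := hx
      by_cases hml : m = l
      · subst hml
        exact Or.inr hm
      · refine Or.inl (Or.inl (Or.inl (Or.inr ⟨hFlF m (hK1 m hm), ?_⟩)))
        exact hd1 (hFd m l hml) x (hK1 m hm)
  · have e1 : (A0 ∪ X ∪ (Y \ Y') ∪ KK).card = A0.card + X.card + (Y \ Y').card + KK.card := by
      rw [Finset.card_union_of_disjoint, Finset.card_union_of_disjoint,
        Finset.card_union_of_disjoint]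
      · exact hXB.symm.mono_left hA0B
      · rw [Finset.disjoint_union_left]
        exact ⟨hA0Y.mono_right Finset.sdiff_subset, hXB.mono_right
          (Finset.sdiff_subset.trans hYB')⟩
      · rw [Finset.disjoint_union_left, Finset.disjoint_union_left]
        exact ⟨⟨(hFB'.symm.mono_left hA0B).mono_right hKKF, hXF'.mono_right hKKF⟩,
          (hFB'.symm.mono_left (Finset.sdiff_subset.trans hYB')).mono_right hKKF⟩
    have e2 : A0.card + W.card = (B \ Y).card := by
      rw [hA0]
      exact Finset.card_sdiff_add_card_eq_card hW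
    have e3 : (B \ Y).card + Y.card = B.card := Finset.card_sdiff_add_card_eq_card hYB'
    have e4 : (Y \ Y').card + Y'.card = Y.card := Finset.card_sdiff_add_card_eq_card hY'Y
    rw [e1, hKKc]
    omega

end Pool.Agent.Helper69.LS2
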